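import Pool.Agent.H314.Hex.N12

set_option autoImplicit false

open H314Hex

/-- For every density `δ ≥ 2` and among all lattices of density `δ`, the hexagonal lattice is the
unique maximizer of the optimal lower frame bound and the unique minimizer of the optimal upper
frame bound of the Gaussian Gabor system. Here `(a b; c d) ℤ²` is an arbitrary lattice of volume
`|ad - bc| = δ⁻¹ ≤ 1/2` and `(a₀ b₀; c₀ d₀) ℤ²` a hexagonal lattice of the same volume. -/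
theorem Pool.Agent.Results.MP_7e122f_an.HexDensityGe2.result :
    ∀ a b c d a₀ b₀ c₀ d₀ : ℝ, a * d - b * c ≠ 0 → |a * d - b * c| ≤ 1 / 2 →
      |a₀ * d₀ - b₀ * c₀| = |a * d - b * c| → IsHex a₀ b₀ c₀ d₀ →
      ∃ A B A₀ B₀ : ℝ,
        IsLowerFrameBound a b c d A ∧ IsUpperFrameBound a b c d B ∧
        IsLowerFrameBound a₀ b₀ c₀ d₀ A₀ ∧ IsUpperFrameBound a₀ b₀ c₀ d₀ B₀ ∧
        0 < A₀ ∧ A ≤ A₀ ∧ B₀ ≤ B ∧ (¬ IsHex a b c d → A < A₀ ∧ B₀ < B) := by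
  intro a b c d a₀ b₀ c₀ d₀ h0 h1 h2 h3
  obtain ⟨A, B, A₀, B₀, e1, e2, e3, e4, _, e6, e7, e8, e9⟩ :=
    main3 a b c d a₀ b₀ c₀ d₀ h0 h1 h2 h3
  exact ⟨A, B, A₀, B₀, e1, e2, e3, e4, e6, e7, e8, e9⟩
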